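import Pool.Agent.H185.ZM.Cyc
import Pool.Agent.H185.ZM.Hom

/-!
# MP_d483fb_an: actions of `SL_n(R)`, `R` a ring with a primitive `p`-th root of unity, `p` odd

If `K` is a number field containing the `p`-th roots of unity, `p` an odd prime, then
`SL_n(𝓞_K)` is an irreducible lattice in the product of `[K : ℚ] / 2` copies of `SL_n(ℂ)`, for
which `r(G) = n - 1` and `min(d(G), v(G)) = 2n - 2` (`n ≠ 4`).  Here it is proved that every smooth
action of `SL_n(R)` on a closed connected manifold `M` is trivial on the elementary matrices if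
`p ^ (n - 1)` does not divide `gcd(n, p) * p ^ ⌊dim M / 2⌋ * χ(M)`, where `R` is any commutative
ring with a primitive `p`-th root of unity.
-/

set_option autoImplicit false

namespace Pool.Agent.Results.MP_d483fb_an.CyclotomicLattices

open scoped Manifold ContDiff
open Pool.Agent.H185.ZM Module

variable {E : Type} [NormedAddCommGroup E] [NormedSpace ℝ E] [FiniteDimensional ℝ E]
  {M : Type} [TopologicalSpace M] [ChartedSpace E M] [IsManifold 𝓘(ℝ, E) ∞ M]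

/-- the subgroup of `SL_n(R)` generated by the elementary matrices -/
def elementary (n : ℕ) (R : Type) [CommRing R] :
    Subgroup (Matrix.SpecialLinearGroup (Fin n) R) :=
  Subgroup.closure {g | ∃ (i j : Fin n) (h : i ≠ j) (c : R),
    Matrix.SpecialLinearGroup.transvection h c = g}

theorem trivial_on {p : ℕ} (hp : p.Prime) (hp2 : p ≠ 2) {R : Type} [CommRing R] (z : R)
    (hz : ∑ i ∈ Finset.range p, z ^ i = 0) {n : ℕ} (hn : 3 ≤ n)
    [CompactSpace M] [T2Space M] [ConnectedSpace M]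
    (α : Matrix.SpecialLinearGroup (Fin n) R → (M ≃ₘ^∞⟮𝓘(ℝ, E), 𝓘(ℝ, E)⟯ M))
    (hα : IsHom α)
    (h : ¬ ((p : ℤ) ^ (n - 1) ∣ (Nat.gcd n p : ℤ) *
      (p ^ (finrank ℝ E / 2) * Pool.Agent.Helper381.eulerChar M))) :
    ∀ g ∈ elementary n R, ∀ x, α g x = x := by
  obtain ⟨k, rfl⟩ : ∃ k, n = k + 1 := ⟨n - 1, by omega⟩
  have h1 := cyc_trivial hp hp2 z hz (show 2 ≤ k by omega) hα.action h
  have h2 : elementary (k + 1) R ≤ actKer hα.action := by
    unfold elementary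
    rw [Subgroup.closure_le]
    rintro _ ⟨i, j, hij, c, rfl⟩
    exact h1 i j hij c
  exact fun g hg => h2 hg

theorem arith {p : ℕ} (hp : p.Prime) {n m : ℕ} {χ : ℤ} (h1 : ¬ p ∣ n) (h2 : ¬ (p : ℤ) ∣ χ)
    (h3 : m < 2 * n - 2) :
    ¬ ((p : ℤ) ^ (n - 1) ∣ (Nat.gcd n p : ℤ) * (p ^ (m / 2) * χ)) := by
  intro hdvd
  have h4 : Nat.gcd n p = 1 := Nat.Coprime.symm ((Nat.Prime.coprime_iff_not_dvd hp).2 h1)
  rw [h4, Nat.cast_one, one_mul] at hdvd
  have h5 : (p : ℤ) ^ (n - 1) = p ^ (m / 2) * p ^ (n - 1 - m / 2) := by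
    rw [← pow_add]
    congr 1
    omega
  rw [h5] at hdvd
  have hp0 : (p : ℤ) ≠ 0 := Nat.cast_ne_zero.2 hp.ne_zero
  have h6 := Int.dvd_of_mul_dvd_mul_left (pow_ne_zero _ hp0) hdvd
  exact h2 ((dvd_pow_self _ (by omega)).trans h6)

/-- **Lattices `SL_n(𝓞_K)`, `ζ_p ∈ K`, `p` odd, acting on closed connected manifolds.**
(1) For a commutative ring `R` with an element `z` such that `1 + z + ... + z ^ (p-1) = 0`, every
homomorphism from `SL_n(R)` to `Diff(M)` is trivial on the elementary subgroup if `p ^ (n - 1)`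
does not divide `gcd(n, p) * p ^ ⌊dim M / 2⌋ * χ(M)`. (2) It is trivial if moreover `R` is a
Euclidean domain. (3) The hypothesis holds if `p` divides neither `n` nor `χ(M)` and
`dim M < 2 n - 2`. -/
theorem result {p : ℕ} (hp : p.Prime) (hp2 : p ≠ 2) {n : ℕ} (hn : 3 ≤ n)
    [CompactSpace M] [T2Space M] [ConnectedSpace M] :
    (∀ {R : Type} [CommRing R] (z : R), ∑ i ∈ Finset.range p, z ^ i = 0 →
      ∀ α : Matrix.SpecialLinearGroup (Fin n) R → (M ≃ₘ^∞⟮𝓘(ℝ, E), 𝓘(ℝ, E)⟯ M), IsHom α →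
        ¬ ((p : ℤ) ^ (n - 1) ∣ (Nat.gcd n p : ℤ) *
          (p ^ (finrank ℝ E / 2) * Pool.Agent.Helper381.eulerChar M)) →
        ∀ g ∈ elementary n R, ∀ x, α g x = x) ∧
    (∀ {R : Type} [EuclideanDomain R] (z : R), ∑ i ∈ Finset.range p, z ^ i = 0 →
      ∀ α : Matrix.SpecialLinearGroup (Fin n) R → (M ≃ₘ^∞⟮𝓘(ℝ, E), 𝓘(ℝ, E)⟯ M), IsHom α →
        ¬ ((p : ℤ) ^ (n - 1) ∣ (Nat.gcd n p : ℤ) *
          (p ^ (finrank ℝ E / 2) * Pool.Agent.Helper381.eulerChar M)) →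
        ∀ g, ∀ x, α g x = x) ∧
    (¬ p ∣ n → ¬ (p : ℤ) ∣ Pool.Agent.Helper381.eulerChar M → finrank ℝ E < 2 * n - 2 →
      ¬ ((p : ℤ) ^ (n - 1) ∣ (Nat.gcd n p : ℤ) *
          (p ^ (finrank ℝ E / 2) * Pool.Agent.Helper381.eulerChar M))) := by
  refine ⟨fun z hz α hα h => trivial_on hp hp2 z hz hn α hα h, fun {R} _ z hz α hα h g x => ?_,
    fun h1 h2 h3 => arith hp h1 h2 h3⟩
  refine trivial_on hp hp2 z hz hn α hα h g ?_ x
  have h1 : EE n R = ⊤ := EE_eq_top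
  have h2 : g ∈ EE n R := by rw [h1]; trivial
  exact h2

end Pool.Agent.Results.MP_d483fb_an.CyclotomicLattices
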