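import Pool.Agent.H185.ZM.FI

/-!
# MP_d483fb_an: subgroups of finite index of `SL_n(R)` acting on closed manifolds

For a number field `K` containing `i` or the `q`-th roots of unity, `q` an odd prime, the subgroups
`Γ'` of finite index `N` of `SL_n(𝓞_K)` are lattices in `SL_n(ℂ)^r`, `r = [K : ℚ] / 2`, for which
`r(G) = n - 1` and `min(d(G), v(G)) = 2n - 2` (`n ≠ 4`).  It is proved that a homomorphism from `Γ'`
to the diffeomorphism group of a closed connected manifold `M` of dimension `m` kills a non-scalar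
matrix of order dividing `q`, if `4 ^ (n - 1)` does not divide `gcd(n, 4) 2 ^ m χ(M) N`, respectively
if `q ^ (n - 1)` does not divide `gcd(n, q) q ^ ⌊m / 2⌋ χ(M) N`.
-/

set_option autoImplicit false

namespace Pool.Agent.Results.MP_d483fb_an.FiniteIndexSubgroups

open scoped Manifold ContDiff
open Pool.Agent.H185.ZM Module Matrix

variable {E : Type} [NormedAddCommGroup E] [NormedSpace ℝ E] [FiniteDimensional ℝ E]
  {M : Type} [TopologicalSpace M] [ChartedSpace E M] [IsManifold 𝓘(ℝ, E) ∞ M]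
  {R : Type} [CommRing R]

lemma zp_inj {p : ℕ} [NeZero p] (z : R) (hz : IsPrimitiveRoot z p) :
    Function.Injective (zp z hz.pow_eq_one) := by
  intro x y hxy
  have h1 : z ^ (x.toAdd).val = z ^ (y.toAdd).val := hxy
  have h2 := hz.pow_inj (ZMod.val_lt _) (ZMod.val_lt _) h1
  exact ZMod.val_injective p h2

/-- The hypothesis on the dimension `m` and the Euler characteristic `χ` of the manifold, the degree
`n`, the order `q` of the root of unity and the index `N`. -/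
def Small (n q m : ℕ) (χ : ℤ) (N : ℕ) : Prop :=
  (q = 4 ∧ ¬ ((4 : ℤ) ^ (n - 1) ∣ (Nat.gcd n 4 : ℤ) * (2 ^ m * χ) * N)) ∨
  (q.Prime ∧ q ≠ 2 ∧ ¬ ((q : ℤ) ^ (n - 1) ∣ (Nat.gcd n q : ℤ) * (q ^ (m / 2) * χ) * N))

theorem small_of {n q m : ℕ} {χ : ℤ} {N : ℕ} (hq : q = 4 ∨ (q.Prime ∧ q ≠ 2)) {l : ℕ}
    (hl : l.Prime) (hlq : l ∣ q) (hgcd : Nat.gcd n q = 1) (hchi : ¬ (l : ℤ) ∣ χ) (hN : ¬ l ∣ N)
    (hdim : m < 2 * n - 2) : Small n q m χ N := by
  have hlp : Prime (l : ℤ) := Nat.prime_iff_prime_int.1 hl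
  have key : ¬ (l : ℤ) ∣ χ * N := by
    intro h
    rcases hlp.dvd_or_dvd h with h | h
    · exact hchi h
    · exact hN (Int.natCast_dvd_natCast.1 h)
  rcases hq with rfl | ⟨hq, hq2⟩
  · left
    refine ⟨rfl, fun hdvd => ?_⟩
    have hl2 : l = 2 := by
      have h1 : l ∣ 2 ^ 2 := hlq
      exact (Nat.prime_dvd_prime_iff_eq hl Nat.prime_two).1 (hl.dvd_of_dvd_pow h1)
    rw [hgcd, Nat.cast_one, one_mul, mul_assoc] at hdvd
    have h4 : (4 : ℤ) ^ (n - 1) = 2 ^ m * 2 ^ (2 * n - 2 - m) := by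
      rw [← pow_add, show (4 : ℤ) = 2 ^ 2 by norm_num, ← pow_mul]
      congr 1
      omega
    rw [h4] at hdvd
    have h5 := Int.dvd_of_mul_dvd_mul_left (by positivity) hdvd
    apply key
    rw [hl2]
    exact (dvd_pow_self _ (by omega)).trans h5
  · right
    refine ⟨hq, hq2, fun hdvd => ?_⟩
    have hlq' : l = q := (Nat.prime_dvd_prime_iff_eq hl hq).1 hlq
    rw [hgcd, Nat.cast_one, one_mul, mul_assoc] at hdvd
    have h5 : (q : ℤ) ^ (n - 1) = q ^ (m / 2) * q ^ (n - 1 - m / 2) := by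
      rw [← pow_add]
      congr 1
      omega
    rw [h5] at hdvd
    have hp0 : (q : ℤ) ≠ 0 := Nat.cast_ne_zero.2 hq.ne_zero
    have h6 := Int.dvd_of_mul_dvd_mul_left (pow_ne_zero _ hp0) hdvd
    apply key
    rw [hlq']
    exact (dvd_pow_self _ (by omega)).trans h6

/-- **Subgroups of finite index of `SL_n(R)`.**  Let `z` be a primitive root of unity of order `q`
in the commutative ring `R`, let `Γ'` be a subgroup of finite index `N` of `SL_n(R)` and suppose
`Small n q (dim M) χ(M) N`.  Then for every homomorphism `α : Γ' → Diff(M)`: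
(1) the kernel of `α` contains a non-scalar matrix `g` with `g ^ q = 1`, conjugate in `SL_n(R)` to a
diagonal matrix; (2) `α` has finite image if every normal subgroup of `Γ'` consists of scalar
matrices or has finite index (the Margulis normal subgroup theorem, for lattices of higher rank).
(3) `Small` holds if `dim M < 2 n - 2`, `gcd(n, q) = 1`, and the prime dividing `q` divides neither
`χ(M)` nor `N`. -/
theorem result {n : ℕ} (hn : 3 ≤ n) {q : ℕ} (hq : q = 4 ∨ (q.Prime ∧ q ≠ 2)) (z : R)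
    (hz : IsPrimitiveRoot z q) (Γ' : Subgroup (Matrix.SpecialLinearGroup (Fin n) R))
    [Finite (Matrix.SpecialLinearGroup (Fin n) R ⧸ Γ')]
    [CompactSpace M] [T2Space M] [ConnectedSpace M] :
    (∀ α : Γ' → (M ≃ₘ^∞⟮𝓘(ℝ, E), 𝓘(ℝ, E)⟯ M), IsHom α →
      Small n q (finrank ℝ E) (Pool.Agent.Helper381.eulerChar M) Γ'.index →
      (∃ g : Γ', (∀ x, α g x = x) ∧ g ^ q = 1 ∧
        (∀ c : R, ((g : Matrix.SpecialLinearGroup (Fin n) R) : Matrix (Fin n) (Fin n) R) ≠
          c • (1 : Matrix (Fin n) (Fin n) R)) ∧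
        ∃ (γ : Matrix.SpecialLinearGroup (Fin n) R) (d : Fin n → R),
          ((γ * g * γ⁻¹ : Matrix.SpecialLinearGroup (Fin n) R) : Matrix (Fin n) (Fin n) R) =
            diagonal d) ∧
      (NS Γ' → (Set.range α).Finite)) ∧
    (∀ l : ℕ, l.Prime → l ∣ q → Nat.gcd n q = 1 →
      ¬ (l : ℤ) ∣ Pool.Agent.Helper381.eulerChar M → ¬ l ∣ Γ'.index → finrank ℝ E < 2 * n - 2 →
      Small n q (finrank ℝ E) (Pool.Agent.Helper381.eulerChar M) Γ'.index) := by
  refine ⟨fun α hα h => ?_, fun l hl hlq hgcd hchi hN hdim =>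
    small_of hq hl hlq hgcd hchi hN hdim⟩
  obtain ⟨k, rfl⟩ : ∃ k, n = k + 1 := ⟨n - 1, by omega⟩
  have hne : NeZero q := by
    rcases hq with h | h
    · exact ⟨by omega⟩
    · exact ⟨h.1.ne_zero⟩
  have hcard : Nat.card (Multiplicative (ZMod q)) = q := by simp
  have hfin : Finite (Multiplicative (ZMod q)) := Nat.finite_of_card_ne_zero (by
    rw [hcard]; exact hne.out)
  have hpow : ∀ u : Multiplicative (ZMod q), u ^ q = 1 := by
    intro u
    show (q : ℕ) • u.toAdd = 0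
    simp
  have hex : ∃ (x : Fin k → Multiplicative (ZMod q))
      (γ : Matrix.SpecialLinearGroup (Fin (k + 1)) R)
      (hx : γ⁻¹ * dmt k (zp z hz.pow_eq_one) x * γ ∈ Γ'), (∃ i j, uv x i ≠ uv x j) ∧
      (⟨_, hx⟩ : Γ') ∈ actKer hα.action := by
    rcases h with ⟨hq, h⟩ | ⟨hq, hq2, h⟩
    · refine fi_four (A := Multiplicative (ZMod q)) ?_ (zp z hz.pow_eq_one)
        (show 2 ≤ k by omega) Γ' hα.action ?_
      · intro u
        exact (congrArg (fun l : ℕ => u ^ l) hq).symm.trans (hpow u)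
      · rw [hcard, hq]; exact h
    · refine fi_odd (A := Multiplicative (ZMod q)) hq hq2 hpow (zp z hz.pow_eq_one)
        (show 2 ≤ k by omega) Γ' hα.action ?_
      rw [hcard]; exact h
  obtain ⟨x, γ, hx, hij, hk⟩ := hex
  have hns : ∀ c : R, (((⟨_, hx⟩ : Γ') : Matrix.SpecialLinearGroup (Fin (k + 1)) R) :
      Matrix (Fin (k + 1)) (Fin (k + 1)) R) ≠ c • (1 : Matrix _ _ R) :=
    fun c => conj_not_scalar (zp z hz.pow_eq_one) (zp_inj z hz) hij γ c
  refine ⟨⟨⟨_, hx⟩, hk, ?_, hns, γ, fun i => zp z hz.pow_eq_one (uv x i), ?_⟩, fun hNS => ?_⟩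
  · apply Subtype.ext
    show (γ⁻¹ * dmt k (zp z hz.pow_eq_one) x * γ) ^ q = 1
    have h1 : γ⁻¹ * dmt k (zp z hz.pow_eq_one) x * γ =
        γ⁻¹ * dmt k (zp z hz.pow_eq_one) x * (γ⁻¹)⁻¹ := by rw [inv_inv]
    rw [h1, conj_pow, ← map_pow]
    have h2 : x ^ q = 1 := by
      funext j
      exact hpow _
    rw [h2, map_one]
    group
  · have h1 : γ * (γ⁻¹ * dmt k (zp z hz.pow_eq_one) x * γ) * γ⁻¹ =
        dmt k (zp z hz.pow_eq_one) x := by group
    show ((γ * (γ⁻¹ * dmt k (zp z hz.pow_eq_one) x * γ) * γ⁻¹ :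
      Matrix.SpecialLinearGroup (Fin (k + 1)) R) : Matrix (Fin (k + 1)) (Fin (k + 1)) R) = _
    rw [h1]
    rfl
  · apply hα.finite_range
    rcases hNS (actKer hα.action) inferInstance with h1 | h1
    · obtain ⟨c, hc⟩ := h1 _ hk
      exact absurd hc (hns c)
    · exact h1

end Pool.Agent.Results.MP_d483fb_an.FiniteIndexSubgroups
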