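import Pool.Agent.H185.ZM.Gauss

/-!
# MP_d483fb_an: actions of the lattice `SL_n(ℤ[i])` of `SL_n(ℂ)` on closed manifolds

For `G = SL_n(ℂ)` one has `r(G) = n - 1` and `min(d(G), v(G)) = 2n - 2` (for `n ≠ 4`).  The known
results stop at `dim M < n - 1`.  Here the lattice `Γ = SL_n(ℤ[i])` is treated for `dim M < 2n - 2`
under a hypothesis on the Euler characteristic of `M`: if `4 ^ (n - 1)` does not divide
`gcd(n, 4) * 2 ^ (dim M) * χ(M)`, then every smooth action of `Γ` on `M` has finite image.  In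
particular when `n` and `χ(M)` are odd, the full range of the conjecture is covered.
-/

set_option autoImplicit false

namespace Pool.Agent.Results.MP_d483fb_an.GaussianLattice

open scoped Manifold ContDiff
open Pool.Agent.H185.ZM Module

variable {E : Type} [NormedAddCommGroup E] [NormedSpace ℝ E] [FiniteDimensional ℝ E]
  {M : Type} [TopologicalSpace M] [ChartedSpace E M] [IsManifold 𝓘(ℝ, E) ∞ M]

/-- `α` is a homomorphism from the group `Γ` to the group of smooth diffeomorphisms of `M`. -/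
def IsHom {Γ : Type} [Group Γ] (α : Γ → (M ≃ₘ^∞⟮𝓘(ℝ, E), 𝓘(ℝ, E)⟯ M)) : Prop :=
  ∀ g h : Γ, ∀ x : M, α (g * h) x = α g (α h x)

omit [FiniteDimensional ℝ E] [IsManifold 𝓘(ℝ, E) ∞ M] in
lemma IsHom.action {Γ : Type} [Group Γ] {α : Γ → (M ≃ₘ^∞⟮𝓘(ℝ, E), 𝓘(ℝ, E)⟯ M)} (h : IsHom α) :
    SmoothAction E (fun g x => α g x) where
  one := fun x => by
    have h1 := h 1 1 x
    rw [mul_one] at h1
    exact ((α 1).injective h1).symm
  mul := h
  smooth := fun g => (α g).contMDiff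

theorem finite_range {n : ℕ} (hn : 3 ≤ n) [CompactSpace M] [T2Space M] [ConnectedSpace M]
    {α : Matrix.SpecialLinearGroup (Fin n) GaussianInt → (M ≃ₘ^∞⟮𝓘(ℝ, E), 𝓘(ℝ, E)⟯ M)}
    (hα : IsHom α)
    (h : ¬ ((4 : ℤ) ^ (n - 1) ∣ (Nat.gcd n 4 : ℤ) *
      (2 ^ finrank ℝ E * Pool.Agent.Helper381.eulerChar M))) : (Set.range α).Finite := by
  obtain ⟨k, rfl⟩ : ∃ k, n = k + 1 := ⟨n - 1, by omega⟩
  have hfin := gauss_finite (show 2 ≤ k by omega) hα.action h
  let β : (Matrix.SpecialLinearGroup (Fin (k + 1)) GaussianInt ⧸ actKer hα.action) →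
      (M ≃ₘ^∞⟮𝓘(ℝ, E), 𝓘(ℝ, E)⟯ M) := fun p => α p.out
  refine (Set.finite_range β).subset ?_
  rintro _ ⟨g, rfl⟩
  refine ⟨(g : _ ⧸ actKer hα.action), ?_⟩
  have h1 := QuotientGroup.mk_out_eq_mul (actKer hα.action) g
  obtain ⟨u, hu⟩ := h1
  show α _ = α g
  rw [hu]
  ext x
  rw [hα]
  exact congrArg (α g) (u.2 x)

/-- **Zimmer's conjecture for the lattice `SL_n(ℤ[i])` of `SL_n(ℂ)`, `n ≥ 3`, on closed connected
manifolds.**  If `4 ^ (n - 1)` does not divide `gcd(n, 4) * 2 ^ (dim M) * χ(M)`, then every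
homomorphism of `SL_n(ℤ[i])` to the diffeomorphism group of `M` has finite image; in particular
this holds if `n` and `χ(M)` are odd and `dim M < 2 n - 2`. -/
theorem result {n : ℕ} (hn : 3 ≤ n) [CompactSpace M] [T2Space M] [ConnectedSpace M]
    (α : Matrix.SpecialLinearGroup (Fin n) GaussianInt → (M ≃ₘ^∞⟮𝓘(ℝ, E), 𝓘(ℝ, E)⟯ M))
    (hα : IsHom α) :
    (¬ ((4 : ℤ) ^ (n - 1) ∣ (Nat.gcd n 4 : ℤ) *
      (2 ^ finrank ℝ E * Pool.Agent.Helper381.eulerChar M)) → (Set.range α).Finite) ∧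
    (Odd n → Odd (Pool.Agent.Helper381.eulerChar M) → finrank ℝ E < 2 * n - 2 →
      (Set.range α).Finite) := by
  refine ⟨finite_range hn hα, fun hodd hchi hdim => finite_range hn hα ?_⟩
  intro hdvd
  have h1 : Nat.gcd n 4 = 1 := by
    have h2 : Nat.Coprime n (2 ^ 2) := (Nat.Coprime.pow_right 2 (Nat.coprime_two_right.2 hodd))
    exact h2
  rw [h1, Nat.cast_one, one_mul] at hdvd
  have h4 : (4 : ℤ) ^ (n - 1) = 2 ^ finrank ℝ E * 2 ^ (2 * n - 2 - finrank ℝ E) := by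
    rw [← pow_add, show (4 : ℤ) = 2 ^ 2 by norm_num, ← pow_mul]
    congr 1
    omega
  rw [h4] at hdvd
  have h5 := Int.dvd_of_mul_dvd_mul_left (by positivity) hdvd
  have h6 : (2 : ℤ) ∣ Pool.Agent.Helper381.eulerChar M :=
    (dvd_pow_self 2 (by omega)).trans h5
  exact (Int.not_even_iff_odd.2 hchi) (even_iff_two_dvd.2 h6)

end Pool.Agent.Results.MP_d483fb_an.GaussianLattice
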