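import Pool.Agent.H185.ZM.Quat8

/-!
# MP_d483fb_an: lattices containing the `n`-th power of the quaternion group of order eight

`O` is a ring (not necessarily commutative) whose group of units contains the quaternion group `Q₈`
of order eight, with `-1` as central involution, and `Γ` is any group of invertible `n × n` matrices
over `O` containing the diagonal matrices with entries in `Q₈`.  Examples: `Γ = GL_n(O)`, `O` the
Lipschitz or Hurwitz order, a lattice in `SL_n(ℍ)`; the unitary groups of diagonal hermitian forms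
over these orders, lattices in `Sp(p, q)`, `p + q = n`; and `Γ = Sp_{2n}(ℤ[i])`, a lattice in
`Sp_{2n}(ℂ)` (with `O` the ring of `2 × 2` matrices over `ℤ[i]`).  In these cases
`min(d(G), v(G)) = 4n - 4, 4n - 5, 4n - 4`.
-/

set_option autoImplicit false

namespace Pool.Agent.Results.MP_d483fb_an.QuaternionicLattices

open scoped Manifold ContDiff
open Pool.Agent.H185.ZM Module Matrix

variable {E : Type} [NormedAddCommGroup E] [NormedSpace ℝ E] [FiniteDimensional ℝ E]
  {M : Type} [TopologicalSpace M] [ChartedSpace E M] [IsManifold 𝓘(ℝ, E) ∞ M]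
  {O : Type} [Ring O]

/-- the diagonal matrices with entries in the quaternion group of order eight -/
def quatDiag (u : QuaternionGroup 2 →* O) (n : ℕ) :
    (Fin n → QuaternionGroup 2) →* (Matrix (Fin n) (Fin n) O)ˣ :=
  MonoidHom.toHomUnits
    { toFun := fun q => diagonal (fun i => u (q i))
      map_one' := by
        show diagonal (fun i : Fin n => u ((1 : Fin n → QuaternionGroup 2) i)) = 1
        simp only [Pi.one_apply, map_one]
        exact diagonal_one
      map_mul' := fun p q => by
        show diagonal (fun i => u ((p * q) i)) = diagonal (fun i => u (p i)) *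
          diagonal (fun i => u (q i))
        rw [diagonal_mul_diagonal]
        simp only [Pi.mul_apply, map_mul] }

lemma quatDiag_coe (u : QuaternionGroup 2 →* O) (n : ℕ) (q : Fin n → QuaternionGroup 2) :
    ((quatDiag u n q : (Matrix (Fin n) (Fin n) O)ˣ) : Matrix (Fin n) (Fin n) O) =
      diagonal (fun i => u (q i)) := rfl

theorem arith {n m : ℕ} {χ : ℤ} (h : ¬ ((4 : ℤ) ^ (n - 1) ∣ 2 ^ (m / 2) * χ)) (hn : 1 ≤ n) :
    ¬ ((2 : ℤ) ^ (3 * n) ∣ 2 ^ (n + 2 + m / 2) * χ) := by
  intro hdvd
  apply h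
  have h1 : (2 : ℤ) ^ (3 * n) = 2 ^ (n + 2) * 4 ^ (n - 1) := by
    rw [show (4 : ℤ) = 2 ^ 2 by norm_num, ← pow_mul, ← pow_add]
    congr 1
    omega
  have h2 : (2 : ℤ) ^ (n + 2 + m / 2) * χ = 2 ^ (n + 2) * (2 ^ (m / 2) * χ) := by
    rw [pow_add, mul_assoc]
  rw [h1, h2] at hdvd
  exact Int.dvd_of_mul_dvd_mul_left (by positivity) hdvd

/-- **Lattices containing powers of the quaternion group.**  Suppose that `4 ^ (n - 1)` does not
divide `2 ^ ⌊dim M / 2⌋ * χ(M)`.  Then for every homomorphism `α : Γ → Diff(M)`: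
(1) the kernel of `α` contains a diagonal matrix with entries in `Q₈` different from `1` and `-1`;
(2) `α` has finite image if every normal subgroup of `Γ` is contained in `{1, -1}` or has finite
index (the Margulis normal subgroup theorem, for lattices of higher rank).
(3) The hypothesis holds if `χ(M)` is odd and `dim M < 4 n - 4`. -/
theorem result {n : ℕ} (hn : 1 ≤ n) (u : QuaternionGroup 2 →* O) (hu : Function.Injective u)
    (hz : u (QuaternionGroup.a 2) = -1) (Γ : Subgroup (Matrix (Fin n) (Fin n) O)ˣ)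
    (hΓ : ∀ q, quatDiag u n q ∈ Γ) [CompactSpace M] [T2Space M] [ConnectedSpace M] :
    (∀ α : Γ → (M ≃ₘ^∞⟮𝓘(ℝ, E), 𝓘(ℝ, E)⟯ M), IsHom α →
      ¬ ((4 : ℤ) ^ (n - 1) ∣ 2 ^ (finrank ℝ E / 2) * Pool.Agent.Helper381.eulerChar M) →
      (∃ q : Fin n → QuaternionGroup 2, (∀ x, α ⟨quatDiag u n q, hΓ q⟩ x = x) ∧
        diagonal (fun i => u (q i)) ≠ 1 ∧ diagonal (fun i => u (q i)) ≠ -1) ∧
      ((∀ N : Subgroup Γ, N.Normal →
        (∀ g ∈ N, ((g : (Matrix (Fin n) (Fin n) O)ˣ) : Matrix (Fin n) (Fin n) O) = 1 ∨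
          ((g : (Matrix (Fin n) (Fin n) O)ˣ) : Matrix (Fin n) (Fin n) O) = -1) ∨
        Finite (Γ ⧸ N)) → (Set.range α).Finite)) ∧
    (Odd (Pool.Agent.Helper381.eulerChar M) → finrank ℝ E < 4 * n - 4 →
      ¬ ((4 : ℤ) ^ (n - 1) ∣ 2 ^ (finrank ℝ E / 2) * Pool.Agent.Helper381.eulerChar M)) := by
  refine ⟨fun α hα h => ?_, fun hchi hdim hdvd => ?_⟩
  · let φ : (Fin n → QuaternionGroup 2) →* Γ :=
      { toFun := fun q => ⟨quatDiag u n q, hΓ q⟩
        map_one' := Subtype.ext (map_one _)
        map_mul' := fun p q => Subtype.ext (map_mul _ p q) }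
    have hex : ∃ q : Fin n → QuaternionGroup 2, (∀ x, α (φ q) x = x) ∧
        diagonal (fun i => u (q i)) ≠ 1 ∧ diagonal (fun i => u (q i)) ≠ -1 := by
      by_contra hcon
      push Not at hcon
      apply arith h hn
      refine q8_dvd (hα.action.comp φ) (fun p hp => ?_)
      by_cases h1 : diagonal (fun i => u (p i)) = (1 : Matrix (Fin n) (Fin n) O)
      · left
        funext i
        apply hu
        have h2 := congrFun (congrFun h1 i) i
        rw [diagonal_apply_eq, one_apply_eq] at h2
        rw [h2, Pi.one_apply, map_one]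
      · right
        have h2 := hcon p hp h1
        funext i
        apply hu
        have h3 := congrFun (congrFun h2 i) i
        rw [diagonal_apply_eq, neg_apply, one_apply_eq] at h3
        rw [h3]
        exact hz.symm
    refine ⟨hex, fun hNS => hα.finite_range ?_⟩
    obtain ⟨q, hq1, hq2, hq3⟩ := hex
    rcases hNS (actKer hα.action) inferInstance with h1 | h1
    · rcases h1 (φ q) hq1 with h2 | h2
      · exact absurd h2 hq2
      · exact absurd h2 hq3
    · exact h1
  · have h4 : (4 : ℤ) ^ (n - 1) = 2 ^ (finrank ℝ E / 2) * 2 ^ (2 * (n - 1) - finrank ℝ E / 2) := by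
      rw [← pow_add, show (4 : ℤ) = 2 ^ 2 by norm_num, ← pow_mul]
      congr 1
      omega
    rw [h4] at hdvd
    have h5 := Int.dvd_of_mul_dvd_mul_left (by positivity) hdvd
    have h6 : (2 : ℤ) ∣ Pool.Agent.Helper381.eulerChar M :=
      (dvd_pow_self 2 (by omega)).trans h5
    exact (Int.not_even_iff_odd.2 hchi) (even_iff_two_dvd.2 h6)

end Pool.Agent.Results.MP_d483fb_an.QuaternionicLattices
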